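import Pool.Agent.H79.EQD.Defs

/-!
# Weights of homogeneous skew programs
-/

set_option autoImplicit false

namespace Pool.Agent.H34.EQD

open MvPolynomial Pool.Agent.H80 Pool.EQD

universe u v

/-- Each monomial of a line of a skew program is built up variable by variable through monomials of
lines. -/
theorem path {K : Type u} [CommSemiring K] {σ : Type} {l : List (MvPolynomial σ K)}
    (hl : LSLP l) : ∀ p ∈ l, ∀ m : σ →₀ ℕ, coeff m p ≠ 0 →
    ∃ vs : List σ, (vs.map (fun x => Finsupp.single x 1)).sum = m ∧
      ∀ k ≤ vs.length, ∃ q ∈ l, coeff ((vs.take k).map (fun x => Finsupp.single x 1)).sum q ≠ 0 := by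
  classical
  induction hl with
  | one =>
    intro p hp m hm
    rw [List.mem_singleton] at hp
    subst hp
    rw [MvPolynomial.coeff_one] at hm
    have hm0 : (0 : σ →₀ ℕ) = m := by
      by_contra h
      rw [if_neg h] at hm
      exact hm rfl
    refine ⟨[], by simpa using hm0, ?_⟩
    intro k _
    refine ⟨1, List.mem_singleton.2 rfl, ?_⟩
    rw [if_pos hm0] at hm
    simpa [MvPolynomial.coeff_one] using hm
  | cons h hp ih =>
    rename_i l p0
    have old : ∀ p ∈ l, ∀ m : σ →₀ ℕ, coeff m p ≠ 0 →
        ∃ vs : List σ, (vs.map (fun x => Finsupp.single x 1)).sum = m ∧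
        ∀ k ≤ vs.length, ∃ q ∈ p0 :: l,
          coeff ((vs.take k).map (fun x => Finsupp.single x 1)).sum q ≠ 0 := by
      intro p hp m hm
      obtain ⟨vs, h1, h2⟩ := ih p hp m hm
      refine ⟨vs, h1, fun k hk => ?_⟩
      obtain ⟨q, hq, hq'⟩ := h2 k hk
      exact ⟨q, List.mem_cons_of_mem _ hq, hq'⟩
    intro p hpm m hm
    rcases List.mem_cons.1 hpm with rfl | hpm
    · cases hp with
      | mulVar hq i =>
        rename_i q
        rw [MvPolynomial.coeff_mul_X'] at hm
        split_ifs at hm with hi
        · obtain ⟨vs, h1, h2⟩ := old q hq _ hm
          have hsum : ((vs ++ [i]).map (fun x => Finsupp.single x 1)).sum = m := by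
            rw [List.map_append, List.sum_append, h1]
            simp only [List.map_cons, List.map_nil, List.sum_cons, List.sum_nil, add_zero]
            refine tsub_add_cancel_of_le ?_
            rw [Finsupp.single_le_iff]
            exact Nat.one_le_iff_ne_zero.2 (Finsupp.mem_support_iff.1 hi)
          refine ⟨vs ++ [i], hsum, ?_⟩
          intro k hk
          rw [List.length_append, List.length_singleton] at hk
          rcases Nat.lt_or_ge vs.length k with hk' | hk'
          · have e : (vs ++ [i]).take k = vs ++ [i] := by
              apply List.take_of_length_le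
              rw [List.length_append, List.length_singleton]
              omega
            refine ⟨q * X i, List.mem_cons_self, ?_⟩
            rw [e, hsum, MvPolynomial.coeff_mul_X', if_pos hi]
            exact hm
          · rw [List.take_append_of_le_length hk']
            exact h2 k hk'
        · exact absurd rfl hm
      | mulConst hq c =>
        rename_i q
        rw [mul_comm, MvPolynomial.coeff_C_mul] at hm
        exact old q hq m (fun h0 => hm (by rw [h0, mul_zero]))
      | add ha hb =>
        rename_i a b
        rw [MvPolynomial.coeff_add] at hm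
        by_cases h0 : coeff m a = 0
        · exact old b hb m (fun h1 => hm (by rw [h0, h1, add_zero]))
        · exact old a ha m h0
    · exact old p hpm m hm

theorem toMultiset_list {σ : Type} (vs : List σ) :
    Finsupp.toMultiset ((vs.map (fun x => Finsupp.single x 1)).sum) = (vs : Multiset σ) := by
  induction vs with
  | nil => simp
  | cons a t ih =>
    rw [List.map_cons, List.sum_cons, map_add, ih, Finsupp.toMultiset_single, one_smul]
    rfl

theorem toMultiset_finset {σ ι : Type} (N : Finset ι) (e : ι → σ) :
    Finsupp.toMultiset (∑ v ∈ N, Finsupp.single (e v) 1) = N.val.map e := by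
  classical
  induction N using Finset.induction_on with
  | empty => simp
  | insert a s ha ih =>
    rw [Finset.sum_insert ha, map_add, ih, Finsupp.toMultiset_single, one_smul,
      Finset.insert_val_of_notMem ha, Multiset.map_cons]
    rfl

theorem weight_list {σ : Type} {G : Type v} [AddCommMonoid G] (w : σ → G) (vs : List σ) :
    Finsupp.weight w ((vs.map (fun x => Finsupp.single x 1)).sum) = (vs.map w).sum := by
  induction vs with
  | nil => simp
  | cons a t ih =>
    rw [List.map_cons, List.sum_cons, map_add, ih, List.map_cons, List.sum_cons]
    congr 1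
    rw [Finsupp.weight_single, one_smul]

theorem t_skw : SKWStmt.{u, v} := by
  classical
  intro K _ σ G _ w l hl hhom
  let g : MvPolynomial σ K → G := fun p => if h : Hom w p then h.choose else 0
  have hg : ∀ p ∈ l, ∀ m : σ →₀ ℕ, coeff m p ≠ 0 → Finsupp.weight w m = g p := by
    intro p hp m hm
    have h := hhom p hp
    have : g p = h.choose := dif_pos h
    rw [this]
    exact h.choose_spec hm
  refine ⟨(l.map g).toFinset, ?_, ?_⟩
  · calc (l.map g).toFinset.card ≤ (l.map g).length := List.toFinset_card_le _
      _ = l.length := List.length_map _
  · intro f hf ι N e he hc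
    obtain ⟨vs, h1, h2⟩ := path hl f hf _ hc
    have hms : (vs : Multiset σ) = N.val.map e := by
      rw [← toMultiset_list, h1, toMultiset_finset]
    have hnd : vs.Nodup := by
      rw [← Multiset.coe_nodup, hms]
      exact Multiset.Nodup.map_on (fun x hx y hy hxy => he hx hy hxy) N.nodup
    have hmem : ∀ x, x ∈ vs ↔ ∃ v ∈ N, e v = x := by
      intro x
      rw [← Multiset.mem_coe, hms, Multiset.mem_map]
      rfl
    refine ⟨fun v => vs.idxOf (e v), ?_, ?_⟩
    · intro x hx y hy hxy
      have hx' : e x ∈ vs := (hmem _).2 ⟨x, hx, rfl⟩
      exact he hx hy ((List.idxOf_inj hx').1 hxy)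
    · intro j
      have key : ∑ v ∈ N.filter (fun v => vs.idxOf (e v) < j), w (e v) =
          ((vs.take j).map w).sum := by
        rw [← List.sum_toFinset w (hnd.sublist (List.take_sublist j vs))]
        have him : (vs.take j).toFinset = (N.filter (fun v => vs.idxOf (e v) < j)).image e := by
          ext x
          rw [List.mem_toFinset, Finset.mem_image]
          constructor
          · intro hx
            have hxv : x ∈ vs := List.mem_of_mem_take hx
            obtain ⟨v, hv, rfl⟩ := (hmem x).1 hxv
            refine ⟨v, Finset.mem_filter.2 ⟨hv, ?_⟩, rfl⟩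
            obtain ⟨i, hi, hix⟩ := List.getElem_of_mem hx
            rw [List.length_take] at hi
            rw [List.getElem_take] at hix
            rw [← hix, hnd.idxOf_getElem]
            omega
          · rintro ⟨v, hv, rfl⟩
            rw [Finset.mem_filter] at hv
            have hxv : e v ∈ vs := (hmem _).2 ⟨v, hv.1, rfl⟩
            have hlt : vs.idxOf (e v) < vs.length := List.idxOf_lt_length_iff.2 hxv
            rw [List.mem_take_iff_getElem]
            exact ⟨vs.idxOf (e v), by omega, List.getElem_idxOf hlt⟩
        rw [him, Finset.sum_image]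
        intro x hx y hy hxy
        exact he (Finset.mem_filter.1 hx).1 (Finset.mem_filter.1 hy).1 hxy
      have hk : vs.take j = vs.take (min j vs.length) := by
        rcases le_total j vs.length with h | h
        · rw [min_eq_left h]
        · rw [min_eq_right h, List.take_of_length_le h, List.take_length]
      obtain ⟨q, hq, hq'⟩ := h2 (min j vs.length) (min_le_right _ _)
      have hw := hg q hq _ hq'
      rw [weight_list] at hw
      rw [key, hk, hw, List.mem_toFinset, List.mem_map]
      exact ⟨q, hq, rfl⟩

end Pool.Agent.H34.EQD
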