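import Pool.Agent.H79.EQD.Defs

/-!
# Homogeneous circuits for the tree polynomials
-/

set_option autoImplicit false

namespace Pool.Agent.H34.EQD

open MvPolynomial Pool.Agent.H80 Pool.EQD

universe u v

section gen

variable {K : Type u} [CommSemiring K] {σ : Type} {G : Type v} [AddCommMonoid G] (w : σ → G)

/-- all members of the list are homogeneous -/
def AllHom (l : List (MvPolynomial σ K)) : Prop := ∀ p ∈ l, Hom w p

/-- Derivations through homogeneous polynomials. -/
def HDer (l : List (MvPolynomial σ K)) (k : ℕ) (l' : List (MvPolynomial σ K)) : Prop :=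
  Der l k l' ∧ (AllHom w l → AllHom w l')

variable {w}

theorem HDer.refl (l : List (MvPolynomial σ K)) : HDer w l 0 l := ⟨Der.refl l, id⟩

theorem HDer.trans {l l' l'' : List (MvPolynomial σ K)} {k k' : ℕ} (h : HDer w l k l')
    (h' : HDer w l' k' l'') : HDer w l (k + k') l'' :=
  ⟨h.1.trans h'.1, fun hl => h'.2 (h.2 hl)⟩

theorem HDer.step {l l' : List (MvPolynomial σ K)} {k : ℕ} (h : HDer w l k l')
    {p : MvPolynomial σ K} (hp : Step l' p) (hh : Hom w p) : HDer w l (k + 1) (p :: l') :=
  ⟨h.1.step hp, fun hl q hq => by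
    rcases List.mem_cons.1 hq with rfl | hq
    · exact hh
    · exact h.2 hl q hq⟩

theorem HDer.sub {l l' : List (MvPolynomial σ K)} {k : ℕ} (h : HDer w l k l') : l ⊆ l' := h.1.2.1

theorem HDer.mono {l l' : List (MvPolynomial σ K)} {k k' : ℕ} (h : HDer w l k l') (hk : k ≤ k') :
    HDer w l k' l' := ⟨⟨h.1.1, h.1.2.1, h.1.2.2.trans (by omega)⟩, h.2⟩

theorem hom_sum {ι : Type*} (s : Finset ι) (f : ι → MvPolynomial σ K) (m : G)
    (h : ∀ i ∈ s, IsWeightedHomogeneous w (f i) m) :
    IsWeightedHomogeneous w (∑ i ∈ s, f i) m := by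
  classical
  intro d hd
  rw [MvPolynomial.coeff_sum] at hd
  obtain ⟨i, hi, hne⟩ := Finset.exists_ne_zero_of_sum_ne_zero hd
  exact h i hi hne

theorem HDer.sum_mul {ι : Type*} (s : Finset ι) (a b : ι → MvPolynomial σ K)
    (l : List (MvPolynomial σ K)) (ha : ∀ i ∈ s, a i ∈ l) (hb : ∀ i ∈ s, b i ∈ l) (m : G)
    (hm : ∀ i ∈ s, IsWeightedHomogeneous w (a i * b i) m) :
    ∃ l', HDer w l (2 * s.card + 1) l' ∧ ∑ i ∈ s, a i * b i ∈ l' := by
  classical
  induction s using Finset.induction_on with
  | empty =>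
    refine ⟨C 0 :: l, (HDer.refl l).step (Step.const 0) ⟨0, ?_⟩, ?_⟩
    · rw [C_0]
      exact isWeightedHomogeneous_zero K w 0
    · simp
  | insert i s hi ih =>
    obtain ⟨l', h1, h2⟩ := ih (fun j hj => ha j (Finset.mem_insert_of_mem hj))
      (fun j hj => hb j (Finset.mem_insert_of_mem hj))
      (fun j hj => hm j (Finset.mem_insert_of_mem hj))
    have h3 := h1.step (Step.mul (h1.sub (ha i (Finset.mem_insert_self i s)))
      (h1.sub (hb i (Finset.mem_insert_self i s)))) ⟨m, hm i (Finset.mem_insert_self i s)⟩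
    have h4 := h3.step (Step.add (a := a i * b i) (b := ∑ i ∈ s, a i * b i)
      List.mem_cons_self (List.mem_cons_of_mem _ h2)) ⟨m, by
        have := hom_sum (insert i s) (fun i => a i * b i) m hm
        rwa [Finset.sum_insert hi] at this⟩
    refine ⟨_, h4.mono ?_, ?_⟩
    · rw [Finset.card_insert_of_notMem hi]
      omega
    · rw [Finset.sum_insert hi]
      exact List.mem_cons_self

theorem HDer.all {ι : Type*} (s : Finset ι) (p : ι → MvPolynomial σ K) (k : ℕ)
    (l : List (MvPolynomial σ K))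
    (h : ∀ i ∈ s, ∀ l₁ : List (MvPolynomial σ K), l ⊆ l₁ → ∃ l', HDer w l₁ k l' ∧ p i ∈ l') :
    ∃ l', HDer w l (s.card * k) l' ∧ ∀ i ∈ s, p i ∈ l' := by
  classical
  induction s using Finset.induction_on with
  | empty => exact ⟨l, by simpa using HDer.refl l, by simp⟩
  | insert i s hi ih =>
    obtain ⟨l', h1, h2⟩ := ih (fun j hj => h j (Finset.mem_insert_of_mem hj))
    obtain ⟨l'', h3, h4⟩ := h i (Finset.mem_insert_self i s) l' h1.sub
    refine ⟨l'', ?_, ?_⟩
    · rw [Finset.card_insert_of_notMem hi, add_mul, one_mul]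
      exact h1.trans h3
    · intro j hj
      rcases Finset.mem_insert.1 hj with rfl | hj
      · exact h4
      · exact h3.sub (h2 j hj)

theorem exists_pre' {l : List (MvPolynomial σ K)} (h : SLP l) :
    ∃ (D : Pre K σ) (val : D.V → MvPolynomial σ K), D.IsVal val ∧
      @Fintype.card D.V D.fin = l.length ∧ (∀ p ∈ l, ∃ v, val v = p) ∧ ∀ v, val v ∈ l := by
  induction h with
  | nil =>
    refine ⟨Pre.empty K σ, fun v => v.elim, fun v => v.elim, rfl, ?_, fun v => v.elim⟩
    intro p hp
    simp at hp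
  | cons h hp ih =>
    rename_i l p
    obtain ⟨D, val, hval, hcard, hmem, hin⟩ := ih
    have key : ∃ g : Gate K σ D.V, g.value val = p := by
      cases hp with
      | var i => exact ⟨Gate.var i, rfl⟩
      | const c => exact ⟨Gate.const c, rfl⟩
      | add ha hb =>
        obtain ⟨v, rfl⟩ := hmem _ ha
        obtain ⟨w, rfl⟩ := hmem _ hb
        exact ⟨Gate.add v w, rfl⟩
      | mul ha hb =>
        obtain ⟨v, rfl⟩ := hmem _ ha
        obtain ⟨w, rfl⟩ := hmem _ hb
        exact ⟨Gate.mul v w, rfl⟩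
    obtain ⟨g, hg⟩ := key
    refine ⟨D.addNode g, Pre.addVal D g val, D.addNode_isVal g val hval, ?_, ?_, ?_⟩
    · rw [Pre.addNode_card, hcard]; rfl
    · intro q hq
      rcases List.mem_cons.1 hq with rfl | hq
      · exact ⟨none, hg⟩
      · obtain ⟨v, hv⟩ := hmem q hq
        exact ⟨some v, hv⟩
    · intro v
      cases v with
      | none =>
        have : Pre.addVal D g val none = p := hg
        rw [this]
        exact List.mem_cons_self
      | some v => exact List.mem_cons_of_mem _ (hin v)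

theorem exists_circuit' {l : List (MvPolynomial σ K)} (h : SLP l) (hh : AllHom w l)
    {p : MvPolynomial σ K} (hp : p ∈ l) :
    ∃ D : Circuit K σ, HomComputes w D p ∧ D.size ≤ l.length := by
  obtain ⟨D, val, hval, hcard, hmem, hin⟩ := exists_pre' h
  obtain ⟨v, rfl⟩ := hmem p hp
  refine ⟨D.prune v, ⟨fun x => val x.1, ?_, rfl, ?_⟩, (D.prune_size_le v).trans hcard.le⟩
  · intro x
    exact (hval x.1).trans (Pre.restrictGate_value _ _ _ _).symm
  · intro x
    exact hh _ (hin x.1)

theorem hom_rename {τ : Type} (e : σ → τ) (w' : τ → G) (p : MvPolynomial σ K)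
    (h : Hom (fun x => w' (e x)) p) : Hom w' (rename e p) := by
  classical
  obtain ⟨m, hm⟩ := h
  refine ⟨m, ?_⟩
  intro d hd
  obtain ⟨d', h1, h2⟩ := coeff_rename_ne_zero e p d hd
  rw [← hm h2, ← h1, Finsupp.weight_apply, Finsupp.weight_apply]
  exact Finsupp.sum_mapDomain_index (fun _ => zero_smul _ _) (fun _ _ _ => add_smul _ _ _)

theorem SLP.rename {τ : Type} (e : σ → τ) {l : List (MvPolynomial σ K)} (h : SLP l) :
    SLP (l.map (MvPolynomial.rename e)) := by
  induction h with
  | nil => exact SLP.nil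
  | cons h hp ih =>
    refine SLP.cons ih ?_
    cases hp with
    | var i => rw [rename_X]; exact Step.var _
    | const c => rw [rename_C]; exact Step.const _
    | add ha hb =>
      rw [map_add]
      exact Step.add (List.mem_map_of_mem ha) (List.mem_map_of_mem hb)
    | mul ha hb =>
      rw [map_mul]
      exact Step.mul (List.mem_map_of_mem ha) (List.mem_map_of_mem hb)

end gen

section tree

variable (K : Type u) [CommSemiring K] (L : Type) [Fintype L] {G : Type v} [AddCommGroup G]
  (u : L → G)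

theorem tp_hom (m : ℕ) (i : L) : IsWeightedHomogeneous (tw u) (tp K L m i) (u i) := by
  induction m using Nat.strong_induction_on generalizing i with
  | _ m ih =>
    match m, ih with
    | 0, _ =>
      rw [tp]
      exact isWeightedHomogeneous_zero K _ _
    | 1, _ =>
      rw [tp]
      exact isWeightedHomogeneous_X K (tw u) (Sum.inl i)
    | (m + 2), ih =>
      rw [tp]
      refine hom_sum _ _ _ fun j _ => hom_sum _ _ _ fun k _ => ?_
      have h1 : IsWeightedHomogeneous (tw u) (X (Sum.inr (i, j, k)) : MvPolynomial (TVar L) K)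
          (u i - u j - u k) := isWeightedHomogeneous_X K (tw u) (Sum.inr (i, j, k))
      have h2 : IsWeightedHomogeneous (tw u)
          (∑ a : Fin (m + 1), tp K L (a.1 + 1) j * tp K L (m + 1 - a.1) k) (u j + u k) :=
        hom_sum _ _ _ fun a _ => (ih (a.1 + 1) (by have := a.2; omega) j).mul
          (ih (m + 1 - a.1) (by omega) k)
      have h3 := h1.mul h2
      have e : u i - u j - u k + (u j + u k) = u i := by abel
      rwa [e] at h3

theorem hder_tp (m : ℕ) (i : L) (l : List (MvPolynomial (TVar L) K))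
    (hl : ∀ m' < m, ∀ i : L, tp K L m' i ∈ l) :
    ∃ l', HDer (tw u) l ((Fintype.card L * Fintype.card L) * (2 * m + 4) + 1) l' ∧
      tp K L m i ∈ l' := by
  match m, hl with
  | 0, hl =>
    refine ⟨C 0 :: l, ((HDer.refl l).step (Step.const 0) ⟨0, ?_⟩).mono (by omega), ?_⟩
    · rw [C_0]
      exact isWeightedHomogeneous_zero K _ 0
    · simp [tp]
  | 1, hl =>
    refine ⟨X (Sum.inl i) :: l, ((HDer.refl l).step (Step.var (Sum.inl i)) ⟨_,
      isWeightedHomogeneous_X K (tw u) (Sum.inl i)⟩).mono (by omega), ?_⟩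
    · simp [tp]
  | (m + 2), hl =>
    obtain ⟨l1, h1, h1'⟩ := HDer.all (w := tw u) (Finset.univ : Finset (L × L))
      (fun t => ∑ a : Fin (m + 1), tp K L (a.1 + 1) t.1 * tp K L (m + 1 - a.1) t.2)
      (2 * (m + 1) + 1) l (by
        intro t _ l1 hl1
        obtain ⟨l', h, h'⟩ := HDer.sum_mul (w := tw u) (Finset.univ : Finset (Fin (m + 1)))
          (fun a => tp K L (a.1 + 1) t.1) (fun a => tp K L (m + 1 - a.1) t.2) l1
          (fun a _ => hl1 (hl _ (by have := a.2; omega) _))
          (fun a _ => hl1 (hl _ (by omega) _)) (u t.1 + u t.2)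
          (fun a _ => (tp_hom K L u _ _).mul (tp_hom K L u _ _))
        exact ⟨l', by simpa using h, h'⟩)
    obtain ⟨l2, h2, h2'⟩ := HDer.all (w := tw u) (Finset.univ : Finset (L × L))
      (fun t => (X (Sum.inr (i, t.1, t.2)) : MvPolynomial (TVar L) K)) 1 l1 (by
        intro t _ l2 _
        exact ⟨_, (HDer.refl l2).step (Step.var (Sum.inr (i, t.1, t.2))) ⟨_,
          isWeightedHomogeneous_X K (tw u) (Sum.inr (i, t.1, t.2))⟩, List.mem_cons_self⟩)
    obtain ⟨l3, h3, h3'⟩ := HDer.sum_mul (w := tw u) (Finset.univ : Finset (L × L))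
      (fun t => (X (Sum.inr (i, t.1, t.2)) : MvPolynomial (TVar L) K))
      (fun t => ∑ a : Fin (m + 1), tp K L (a.1 + 1) t.1 * tp K L (m + 1 - a.1) t.2) l2
      (fun t ht => h2' t ht) (fun t ht => h2.sub (h1' t ht)) (u i) (by
        intro t _
        have g1 : IsWeightedHomogeneous (tw u)
            (X (Sum.inr (i, t.1, t.2)) : MvPolynomial (TVar L) K) (u i - u t.1 - u t.2) :=
          isWeightedHomogeneous_X K (tw u) (Sum.inr (i, t.1, t.2))
        have g2 : IsWeightedHomogeneous (tw u)
            (∑ a : Fin (m + 1), tp K L (a.1 + 1) t.1 * tp K L (m + 1 - a.1) t.2)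
            (u t.1 + u t.2) :=
          hom_sum _ _ _ fun a _ => (tp_hom K L u _ _).mul (tp_hom K L u _ _)
        have g3 := g1.mul g2
        have e : u i - u t.1 - u t.2 + (u t.1 + u t.2) = u i := by abel
        rwa [e] at g3)
    refine ⟨l3, ((h1.trans h2).trans h3).mono ?_, ?_⟩
    · simp only [Finset.card_univ, Fintype.card_prod]
      have : ∀ c m : ℕ, c * (2 * (m + 1) + 1) + c * 1 + (2 * c + 1) ≤ c * (2 * (m + 2) + 4) + 1 := by
        intro c m
        nlinarith
      exact this (Fintype.card L * Fintype.card L) m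
    · rw [Fintype.sum_prod_type] at h3'
      rw [tp]
      exact h3'

theorem hder_tp_all (N : ℕ) :
    ∃ l' : List (MvPolynomial (TVar L) K),
      HDer (tw u) [] (N * (Fintype.card L * ((Fintype.card L * Fintype.card L) * (2 * N + 4) + 1)))
        l' ∧ ∀ m < N, ∀ i : L, tp K L m i ∈ l' := by
  have key : ∀ N', N' ≤ N → ∃ l' : List (MvPolynomial (TVar L) K),
      HDer (tw u) []
        (N' * (Fintype.card L * ((Fintype.card L * Fintype.card L) * (2 * N + 4) + 1))) l' ∧
      ∀ m < N', ∀ i : L, tp K L m i ∈ l' := by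
    intro N'
    induction N' with
    | zero =>
      intro _
      refine ⟨[], by simpa using HDer.refl _, ?_⟩
      intro m hm
      omega
    | succ N' ih =>
      intro hN'
      obtain ⟨l1, h1, h1'⟩ := ih (by omega)
      obtain ⟨l2, h2, h2'⟩ := HDer.all (w := tw u) (Finset.univ : Finset L) (fun i => tp K L N' i)
        ((Fintype.card L * Fintype.card L) * (2 * N + 4) + 1) l1 (by
          intro i _ l2 hl2
          obtain ⟨l3, h3, h3'⟩ := hder_tp K L u N' i l2 (fun m' hm' i => hl2 (h1' m' hm' i))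
          refine ⟨l3, h3.mono ?_, h3'⟩
          gcongr
          omega)
      refine ⟨l2, (h1.trans h2).mono ?_, ?_⟩
      · rw [Finset.card_univ]
        ring_nf
        exact le_rfl
      · intro m hm i
        rcases Nat.lt_succ_iff_lt_or_eq.1 hm with h | rfl
        · exact h2.sub (h1' m h i)
        · exact h2' i (Finset.mem_univ i)
  exact key N le_rfl

theorem hder_tsum (N : ℕ) (i : L) :
    ∃ l' : List (MvPolynomial (TVar L) K), SLP l' ∧ AllHom (tw u) l' ∧ tsum K L N i ∈ l' ∧
      l'.length ≤ (N + 1) * (Fintype.card L * ((Fintype.card L * Fintype.card L) *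
        (2 * (N + 1) + 4) + 1)) + (2 * (N + 1) + 2) := by
  obtain ⟨l1, h1, h1'⟩ := hder_tp_all K L u (N + 1)
  have h2 := h1.step (Step.const (1 : K)) ⟨0, isWeightedHomogeneous_C (tw u) 1⟩
  obtain ⟨l3, h3, h3'⟩ := HDer.sum_mul (w := tw u) (Finset.range (N + 1))
    (fun _ => (C 1 : MvPolynomial (TVar L) K))
    (fun m => tp K L m i) (C 1 :: l1) (fun _ _ => List.mem_cons_self)
    (fun m hm => List.mem_cons_of_mem _ (h1' m (Finset.mem_range.1 hm) i)) (u i) (by
      intro m _
      rw [C_1, one_mul]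
      exact tp_hom K L u m i)
  have h4 := h2.trans h3
  refine ⟨l3, h4.1.1 SLP.nil, h4.2 (fun p hp => by simp at hp), ?_, ?_⟩
  · simpa [Pool.Agent.H80.tsum] using h3'
  · refine h4.1.2.2.trans ?_
    simp only [List.length_nil, Finset.card_range]
    omega

end tree

theorem t_vph : VPHStmt.{u, v} := by
  refine ⟨(Polynomial.X + 2) * ((Polynomial.X + 1) * (((Polynomial.X + 1) * (Polynomial.X + 1)) *
    (2 * (Polynomial.X + 2) + 4) + 1)) + (2 * (Polynomial.X + 2) + 2), ?_⟩
  intro K _ G _ n u
  obtain ⟨l, h1, hh, h2, h3⟩ := hder_tsum K (Fin (n + 1)) u (n + 1) 0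
  let e : TVar (Fin (n + 1)) → Fin (nvar n) := tvarEquiv (n + 1)
  have hall : AllHom (treeWeight u) (l.map (rename e)) := by
    intro p hp
    obtain ⟨q, hq, rfl⟩ := List.mem_map.1 hp
    refine hom_rename e (treeWeight u) q ?_
    have hw : (fun x => treeWeight u (e x)) = tw u := by
      funext x
      exact congrArg (tw u) ((tvarEquiv (n + 1)).symm_apply_apply x)
    rw [hw]
    exact hh q hq
  obtain ⟨D, hD, hD'⟩ := exists_circuit' (SLP.rename e h1) hall
    (List.mem_map_of_mem (f := rename e) h2)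
  refine ⟨D, hD, hD'.trans ?_⟩
  rw [List.length_map]
  refine h3.trans ?_
  simp only [Fintype.card_fin, Polynomial.eval_add, Polynomial.eval_mul, Polynomial.eval_X,
    Polynomial.eval_one, Polynomial.eval_ofNat]
  exact le_of_eq (by ring)

end Pool.Agent.H34.EQD
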